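import Mathlib
import Pool.Agent.H200M.Near2

set_option autoImplicit false

/-!
# Any number of arbitrary multiplicities up to `d` on a chain of curves, with a middle part

The point `p` and the points in `A` have ARBITRARY multiplicities ON A CHAIN OF CURVES of degrees
`E 0 ≥ E 1 ≥ … ≥ 1` with margin `t` (`Pool.Agent.H200M.ChainCore`) if `m i ≤ M` for `i ∈ A` and
* `m p + (E 0 + … + E (M - 1)) + 2 ^ 27 t E 0 ≤ d`;
* for `k < M`, if `k = 0` or `E k < E (k - 1)`:
  `∑_A max (m i - k) 0 + E k (E 0 + … + E (k - 1)) + 2 ^ 31 t E k (E 0 + E k g k) ≤ E k d`,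
  where `g k` is the number of the `i ∈ A` with `k < m i ≤ k + 2 ^ 26 t`.

For every `ε > 0` there is `c > 0` such that the system of plane curves of degree `d` with the
multiplicities `m` at general points is non-special if (1) such `p`, `A` and `t ≥ 1` exist, all other
multiplicities are at most `c t`, and (sums over the other points) `|X - ∑ m i (m i + 1)| ≥ ε X`, where
`X = (d + 1) (d + 2) - ∑_{A ∪ p} m i (m i + 1)` (`Pool.Agent.H200M.XA`), or for some `μ` such that all
nonzero values `≤ μ` at the other points are taken at least `2 ^ 29` times there, or the number `k` of the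
values `≤ μ` satisfies `(k + 1) μ ^ 2 ≤ c X` (`Pool.Agent.H200M.Few`), one has
`∑_{m i > c μ} m i ^ 2 ≤ (1 - ε) X` or `∑_{m i ≤ c μ} m i ^ 2 ≥ ε X`. The multiplicities of the other
points between `c μ` and `c t` are arbitrary, pairwise different numbers.

Special cases of the chain:
(2) (`E = 3, …, 3, 1, …, 1`) `m 1 ≥ m 2 ≥ …`, `p` is the `(a + 1)`-st point, `A` the first `a` points,
`m i + m j + m k + 2 ^ 34 t ≤ d` for distinct `i, j, k`, and
`m 1 + … + m a + 2 ^ 35 t (1 + g) ≤ 3 d`, `g` the number of the `i ≤ a` with `m i ≤ 2 ^ 26 t`: the first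
`a` multiplicities are arbitrary with a positive anticanonical degree, with margins;
(3) (`E = e, …, e`) `m i ≤ M` on `A`, `m p + e M + 2 ^ 31 t e ≤ d`,
`∑_A m i + 2 ^ 31 t e ^ 2 (1 + g) ≤ e d`.

Without any exception, in all three cases, the dimension of the space of forms is at most
`max (χ, ε X / 2)` (`Near`), where `χ` is the Euler characteristic and `X / 2` the number of forms left by
the points on the chain, as expected.
-/

namespace Pool.Agent.Results.MP_d3128a_ag.CurveChains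

open Finset Pool.Agent.H200M

/-- The forms of degree `d` vanishing to order at least `m i` at the points `(P i 0 : P i 1 : 1)`. -/
noncomputable def forms {s : ℕ} (P : Fin s → Fin 2 → ℂ) (d : ℕ) (m : Fin s → ℕ) :
    Submodule ℂ (MvPolynomial (Fin 3) ℂ) :=
  MvPolynomial.homogeneousSubmodule (Fin 3) ℂ d ⊓ Submodule.restrictScalars ℂ
    (⨅ i : Fin s, Ideal.span
      ({MvPolynomial.X 0 - MvPolynomial.C (P i 0) * MvPolynomial.X 2,
        MvPolynomial.X 1 - MvPolynomial.C (P i 1) * MvPolynomial.X 2} :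
        Set (MvPolynomial (Fin 3) ℂ)) ^ (m i))

/-- For general points the system is non-special. -/
def NonSpecial {s : ℕ} (d : ℕ) (m : Fin s → ℕ) : Prop :=
  ∃ F : MvPolynomial (Fin s × Fin 2) ℂ, F ≠ 0 ∧ ∀ P : Fin s → Fin 2 → ℂ,
    MvPolynomial.eval (fun ij : Fin s × Fin 2 => P ij.1 ij.2) F ≠ 0 →
      (Module.finrank ℂ ↥(forms P d m) : ℤ) =
        max 0 (((d + 2).choose 2 : ℤ) - ∑ i, ((m i + 1).choose 2 : ℤ))

/-- For general points the dimension of the space of forms is at most the larger one of the Euler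
characteristic and of `ε X / 2`, where `X / 2` is the number of forms left by the points in `C`, as
expected. -/
def Near {s : ℕ} (ε : ℝ) (d : ℕ) (m : Fin s → ℕ) (C : Finset (Fin s)) : Prop :=
  ∃ F : MvPolynomial (Fin s × Fin 2) ℂ, F ≠ 0 ∧ ∀ P : Fin s → Fin 2 → ℂ,
    MvPolynomial.eval (fun ij : Fin s × Fin 2 => P ij.1 ij.2) F ≠ 0 →
      (Module.finrank ℂ ↥(forms P d m) : ℝ) ≤
        max (((d + 2).choose 2 : ℝ) - ∑ i, ((m i + 1).choose 2 : ℝ)) (ε * XA m C d / 2)

/-- The multiplicities outside `C` are not critical: the sum of all `m i (m i + 1)` differs from `X`, the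
volume left by `C`, by at least `ε X`; or for some `μ` such that they take few values `≤ μ` or take them
often, the squares of those above `c μ` have at most the part `1 - ε` of `X`, or the squares of those up to
`c μ` have at least the part `ε`. -/
def Spread (c ε : ℝ) {s : ℕ} (d : ℕ) (m : Fin s → ℕ) (C : Finset (Fin s)) : Prop :=
  ε * XA m C d ≤ |XA m C d - ∑ i ∈ univ \ C, (m i : ℝ) * (m i + 1)| ∨
  ∃ μ : ℝ, Few m (univ \ C) μ (c * XA m C d) ∧
    (∑ i ∈ (univ \ C).filter (fun i => c * μ < (m i : ℝ)), (m i : ℝ) ^ 2 ≤ (1 - ε) * XA m C d ∨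
      ε * XA m C d ≤ ∑ i ∈ (univ \ C).filter (fun i => (m i : ℝ) ≤ c * μ), (m i : ℝ) ^ 2)

theorem Spread.not_tight {c ε : ℝ} {s d : ℕ} {m : Fin s → ℕ} {C : Finset (Fin s)}
    (h : Spread c ε d m C) : ¬ Tight c ε d m C := by
  rintro ⟨h1, h2⟩
  rcases h with h | ⟨μ, h3, h4 | h4⟩
  · exact absurd h1 (not_lt.2 h)
  · exact absurd (h2 μ h3).1 (not_lt.2 h4)
  · exact absurd (h2 μ h3).2 (not_lt.2 h4)

theorem of_gen {s d : ℕ} {m : Fin s → ℕ} (h : Pool.Agent.H200P.GenExp d m) : NonSpecial d m := by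
  obtain ⟨F, hF, hF'⟩ := Pool.Agent.TH442.NF.to_open (d := d) (w := m) h
  refine ⟨F.map (algebraMap ℚ ℂ), Pool.Agent.H932R3.map_ne_zero_of hF, fun P hP => ?_⟩
  rw [MvPolynomial.eval_map] at hP
  have h1 : Module.finrank ℂ ↥(forms P d m) =
      Nat.choose (d + 2) 2 - ∑ i, Nat.choose (m i + 1) 2 := hF' (L := ℂ) P hP
  have h2 : ∑ i, ((m i + 1).choose 2 : ℤ) = ((∑ i, Nat.choose (m i + 1) 2 : ℕ) : ℤ) := by
    push_cast
    rfl
  rw [h1, h2]
  omega

/-- **Main result.** -/
theorem result (ε : ℝ) (hε : 0 < ε) : ∃ c : ℝ, 0 < c ∧ ∀ (s d t : ℕ) (m : Fin s → ℕ), 1 ≤ t →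
    -- chains of curves
    (∀ (p : Fin s) (A : Finset (Fin s)), ChainCore t d m p A →
      (∀ i, i ∉ insert p A → (m i : ℝ) ≤ c * t) →
      Near ε d m (insert p A) ∧ (Spread c ε d m (insert p A) → NonSpecial d m)) ∧
    -- a special case: the first `a` multiplicities have a positive anticanonical degree
    (∀ (a : ℕ) (ha : a < s), Antitone m → 3 ≤ s → m ⟨a, ha⟩ ≤ t →
      (∀ i j k : Fin s, i ≠ j → i ≠ k → j ≠ k → m i + m j + m k + 2 ^ 34 * t ≤ d) →
      ∑ i ∈ univ.filter (fun i : Fin s => i.1 < a), m i + 2 ^ 35 * t *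
        (1 + (univ.filter fun i : Fin s => i.1 < a ∧ m i ≤ 2 ^ 26 * t).card) ≤ 3 * d →
      (∀ i : Fin s, a < i.1 → (m i : ℝ) ≤ c * t) →
      Near ε d m (univ.filter fun i : Fin s => i.1 ≤ a) ∧
      (Spread c ε d m (univ.filter fun i : Fin s => i.1 ≤ a) → NonSpecial d m)) ∧
    -- a special case: one point, and the points of `A` on a curve of degree `e`
    ∀ (p : Fin s) (A : Finset (Fin s)) (e M : ℕ), p ∉ A → 1 ≤ e → (∀ i ∈ A, m i ≤ M) →
      m p + e * M + 2 ^ 31 * t * e ≤ d →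
      ∑ i ∈ A, m i + 2 ^ 31 * t * e ^ 2 *
        (1 + (A.filter fun i => 0 < m i ∧ m i ≤ 2 ^ 26 * t).card) ≤ e * d →
      (∀ i, i ∉ insert p A → (m i : ℝ) ≤ c * t) →
      Near ε d m (insert p A) ∧ (Spread c ε d m (insert p A) → NonSpecial d m) := by
  obtain ⟨c, hc, H⟩ := mainCh_dim ε hε
  have key : ∀ (s d t : ℕ) (m : Fin s → ℕ), 1 ≤ t → ∀ (p : Fin s) (A : Finset (Fin s)),
      ChainCore t d m p A → (∀ i, i ∉ insert p A → (m i : ℝ) ≤ c * t) →
      Near ε d m (insert p A) ∧ (Spread c ε d m (insert p A) → NonSpecial d m) := by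
    intro s d t m ht p A h1 h2
    have H0 := @H s d t m p A ht h1 h2
    rw [chi_cast] at H0
    refine ⟨?_, fun h3 => of_gen (H0.1 h3.not_tight)⟩
    obtain ⟨F, hF, hF'⟩ := GenLe.open H0.2
    refine ⟨F.map (algebraMap ℚ ℂ), Pool.Agent.H932R3.map_ne_zero_of hF, fun P hP => ?_⟩
    rw [MvPolynomial.eval_map] at hP
    exact hF' ℂ P hP
  refine ⟨c, hc, fun s d t m ht => ⟨fun p A h1 h2 => key s d t m ht p A h1 h2, ?_, ?_⟩⟩
  · intro a ha h1 h2 h3 h4 h5 h6
    have e1 : insert (⟨a, ha⟩ : Fin s) (univ.filter fun i : Fin s => i.1 < a) =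
        univ.filter fun i : Fin s => i.1 ≤ a := by
      ext i
      simp only [mem_insert, mem_filter, mem_univ, true_and, Fin.ext_iff]
      omega
    have h7 := key s d t m ht ⟨a, ha⟩ _ (core_ac h1 h2 ha h3 h4 h5) (fun i hi => h6 i (by
      rw [e1, mem_filter] at hi
      by_contra h8
      exact hi ⟨mem_univ _, not_lt.1 h8⟩))
    rw [e1] at h7
    exact h7
  · intro p A e M h1 h2 h3 h4 h5 h6
    exact key s d t m ht p A (core_e h1 h2 h3 h4 h5) h6

end Pool.Agent.Results.MP_d3128a_ag.CurveChains
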