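import Pool.Agent.Q138.PS.UW
import Pool.Agent.Results.MP_d3128a_ag.AllNumbersNearUniform

/-!
# Non-speciality in ALL degrees for most near-uniform vectors of sum `⌊α P(i)⌋`, every number `n ≥ 10` of points

A vector of `n` multiplicities is near-uniform if it takes two consecutive values `m`, `m + 1`; up to the order it is determined
by its sum `W`. Call `W` good if all near-uniform systems with positive multiplicities of sum `W` at `n` general points are
non-special, in every degree. Let `q ≥ 2`. Outside a set of real numbers of Hausdorff dimension at most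
`q / (q + 1 / (q 2 ^ (q - 1)))` (that is `8 / 9` for `q = 2`) every `α > 0` has the following property for each `n ≥ 10`: there is
`η > 0` such that for each `ε > 0`, all large `N` and ALL integral polynomials `P` of degree `q` with positive leading coefficient
and coefficients of size at most `N ^ η`, `W = ⌊α P(i)⌋` is good for all but `(bad n + ε) N` of the `i ≤ N` if `n` is not a perfect
square, `bad n = (min (√n - 3) (2 / 3 + 9 / (4 √n)) + min (√n - 3) (2 / 3 + 1 / (4 √n))) / 2 < 1`, and for all but `ε N` if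
`n ≥ n₀(ε)`.
-/

set_option autoImplicit false

namespace Pool.Agent.Results.MP_d3128a_ag.SumsAlongRealMultiples

open Finset Filter Topology
open Pool.Agent.Q138.PS
open Pool.Agent.Results.MP_d3128a_ag.AllNumbersNearUniform (Good bad)

open Classical in
/-- the number of the `1 ≤ i ≤ N` for which `⌊α P(i)⌋` is not good -/
noncomputable def count (n : ℕ) (α : ℝ) (P : Polynomial ℤ) (N : ℕ) : ℕ :=
  ((Icc 1 N).filter fun i : ℕ => ¬ Good n ⌊α * ((P.eval (i : ℤ) : ℤ) : ℝ)⌋₊).card

theorem count_eq (n : ℕ) (α : ℝ) (P : Polynomial ℤ) (N : ℕ) :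
    (count n α P N : ℝ) = cnP (fun W => ¬ Good n W) α P N := by
  classical
  unfold count cnP cn
  refine congrArg _ (congrArg _ ?_)
  ext n
  simp only [mem_filter]

/-- **Theorem.** -/
theorem result (q : ℕ) (hq : 2 ≤ q) :
    (∃ E : Set ℝ, dimH E ≤ ENNReal.ofReal (q / (q + 1 / ((q : ℝ) * 2 ^ (q - 1)))) ∧ ∀ α : ℝ, 0 < α → α ∉ E →
      ∃ η : ℕ → ℝ, (∀ n, 0 < η n) ∧
      (∀ n : ℕ, 10 ≤ n → ¬ IsSquare n → ∀ ε : ℝ, 0 < ε → ∀ᶠ N : ℕ in atTop, ∀ P : Polynomial ℤ,
        P.natDegree = q → 0 < P.leadingCoeff → (∀ j, |((P.coeff j : ℤ) : ℝ)| ≤ (N : ℝ) ^ (η n)) →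
        (count n α P N : ℝ) ≤ (bad n + ε) * N) ∧
      ∀ ε : ℝ, 0 < ε → ∃ n₀ : ℕ, ∀ n : ℕ, n₀ ≤ n → ∀ᶠ N : ℕ in atTop, ∀ P : Polynomial ℤ,
        P.natDegree = q → 0 < P.leadingCoeff → (∀ j, |((P.coeff j : ℤ) : ℝ)| ≤ (N : ℝ) ^ (η n)) →
        (count n α P N : ℝ) ≤ ε * N) ∧
    ∀ n : ℕ, 10 ≤ n → bad n < 1 := by
  classical
  obtain ⟨s1, s2, s3⟩ := Pool.Agent.Results.MP_d3128a_ag.AllNumbersNearUniform.result
  refine ⟨?_, s2⟩
  obtain ⟨E, hE, hg⟩ := dens_all (ι := ℕ) q hq (fun n W => ¬ Good n W)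
  refine ⟨E, hE, fun α hα hαE => ?_⟩
  choose η hη hgood using hg α hα hαE
  refine ⟨η, hη, fun n hn hns ε hε => ?_, fun ε hε => ?_⟩
  · filter_upwards [hgood n (bad n) (dens_lt _ fun δ hδ => by
      obtain ⟨M0, h⟩ := s1 n hn hns δ hδ
      filter_upwards [tendsto_natCast_atTop_atTop.eventually_ge_atTop M0] with M hM
      exact h M hM) ε hε] with N hN
    intro P hdeg hlead hco
    rw [count_eq]
    exact hN P hdeg hlead hco
  · obtain ⟨n₀, h⟩ := s3 (ε / 2) (by positivity)
    refine ⟨n₀, fun n hn => ?_⟩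
    filter_upwards [hgood n (ε / 2) (dens_lt _ fun δ hδ => by
      filter_upwards [tendsto_natCast_atTop_atTop.eventually_ge_atTop (√(n : ℝ))] with M hM
      have h1 := h n hn 0 M hM
      simp only [zero_le, true_and, zero_add] at h1
      refine h1.trans ?_
      have : (0 : ℝ) ≤ M := Nat.cast_nonneg M
      nlinarith) (ε / 2) (by positivity)] with N hN
    intro P hdeg hlead hco
    rw [count_eq]
    refine (hN P hdeg hlead hco).trans (le_of_eq ?_)
    ring

end Pool.Agent.Results.MP_d3128a_ag.SumsAlongRealMultiples
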