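import Mathlib
import Pool.Agent.H200M.Near2

set_option autoImplicit false

/-!
# Three arbitrary multiplicities, `m 1 + m 2 + m 3 ≤ d`; the others at most a fraction of `d - m 1`

For every `ε > 0` there is `c > 0` with the following property. Let the multiplicities
`m (p 0) ≥ m (p 1) ≥ m (p 2)` of three points be ARBITRARY numbers with
`m (p 0) + m (p 1) + m (p 2) ≤ d`, and let all others be at most `c (d - m (p 0))`. Let
`X = (d + 1) (d + 2) - ∑_j m (p j) (m (p j) + 1)` (`Pool.Agent.H200M.XA`), twice the number of forms left by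
the three points. The system of plane curves of degree `d` with the multiplicities `m` at general points
is non-special in each of the following cases (sums over the other points).
* The multiplicities have `|X - ∑ m i (m i + 1)| ≥ ε X` (that is, twice the Euler characteristic of the
  system is at least `ε X` or at most `- ε X`).
* The multiplicities `> c X ^ (1 / 3)` have `∑ m i ^ 2 ≤ (1 - ε) X`.
* The multiplicities `≤ c X ^ (1 / 3)` have `∑ m i ^ 2 ≥ ε X`.
* The same with the threshold `c μ` for some `μ ≥ 0` such that all nonzero values `≤ μ` at the other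
  points are taken at least `2 ^ 29` times there, or the number `k` of the values `≤ μ` satisfies
  `(k + 1) μ ^ 2 ≤ c X` (`Pool.Agent.H200M.Few`).

The multiplicities above the threshold are arbitrary, pairwise different numbers up to
`c (d - m (p 0))`; the number of points is arbitrary; `c` depends on `ε` only. So if the three largest
multiplicities satisfy `m 1 + m 2 + m 3 ≤ d` and the fourth one is at most `c(ε) (d - m 1)`, the system is
non-special unless the others fill the volume `X` up to the part `ε`, `|X - ∑ m i (m i + 1)| < ε X`, and those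
at most `c(ε) X ^ (1 / 3)` have less than the part `ε`.

Without any exception the dimension of the space of forms is at most `max (χ, ε X / 2)`, where `χ` is the
Euler characteristic and `X / 2` the number of forms left by the three points, as expected.
-/

namespace Pool.Agent.Results.MP_d3128a_ag.ThreeArbitrary

open Finset Pool.Agent.H200M

/-- The forms of degree `d` vanishing to order at least `m i` at the points `(P i 0 : P i 1 : 1)`. -/
noncomputable def forms {s : ℕ} (P : Fin s → Fin 2 → ℂ) (d : ℕ) (m : Fin s → ℕ) :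
    Submodule ℂ (MvPolynomial (Fin 3) ℂ) :=
  MvPolynomial.homogeneousSubmodule (Fin 3) ℂ d ⊓ Submodule.restrictScalars ℂ
    (⨅ i : Fin s, Ideal.span
      ({MvPolynomial.X 0 - MvPolynomial.C (P i 0) * MvPolynomial.X 2,
        MvPolynomial.X 1 - MvPolynomial.C (P i 1) * MvPolynomial.X 2} :
        Set (MvPolynomial (Fin 3) ℂ)) ^ (m i))

/-- For general points the system is non-special. -/
def NonSpecial {s : ℕ} (d : ℕ) (m : Fin s → ℕ) : Prop :=
  ∃ F : MvPolynomial (Fin s × Fin 2) ℂ, F ≠ 0 ∧ ∀ P : Fin s → Fin 2 → ℂ,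
    MvPolynomial.eval (fun ij : Fin s × Fin 2 => P ij.1 ij.2) F ≠ 0 →
      (Module.finrank ℂ ↥(forms P d m) : ℤ) =
        max 0 (((d + 2).choose 2 : ℤ) - ∑ i, ((m i + 1).choose 2 : ℤ))

theorem of_gen {s d : ℕ} {m : Fin s → ℕ} (h : Pool.Agent.H200P.GenExp d m) : NonSpecial d m := by
  obtain ⟨F, hF, hF'⟩ := Pool.Agent.TH442.NF.to_open (d := d) (w := m) h
  refine ⟨F.map (algebraMap ℚ ℂ), Pool.Agent.H932R3.map_ne_zero_of hF, fun P hP => ?_⟩
  rw [MvPolynomial.eval_map] at hP
  have h1 : Module.finrank ℂ ↥(forms P d m) =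
      Nat.choose (d + 2) 2 - ∑ i, Nat.choose (m i + 1) 2 := hF' (L := ℂ) P hP
  have h2 : ∑ i, ((m i + 1).choose 2 : ℤ) = ((∑ i, Nat.choose (m i + 1) 2 : ℕ) : ℤ) := by
    push_cast
    rfl
  rw [h1, h2]
  omega

/-- For general points the dimension of the space of forms is at most `B`. -/
def DimLe {s : ℕ} (B : ℝ) (d : ℕ) (m : Fin s → ℕ) : Prop :=
  ∃ F : MvPolynomial (Fin s × Fin 2) ℂ, F ≠ 0 ∧ ∀ P : Fin s → Fin 2 → ℂ,
    MvPolynomial.eval (fun ij : Fin s × Fin 2 => P ij.1 ij.2) F ≠ 0 →
      (Module.finrank ℂ ↥(forms P d m) : ℝ) ≤ B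

theorem le_of_gen {s d : ℕ} {m : Fin s → ℕ} {B : ℝ} (h : GenLe B d m) : DimLe B d m := by
  obtain ⟨F, hF, hF'⟩ := GenLe.open h
  refine ⟨F.map (algebraMap ℚ ℂ), Pool.Agent.H932R3.map_ne_zero_of hF, fun P hP => ?_⟩
  rw [MvPolynomial.eval_map] at hP
  exact hF' ℂ P hP

/-- **Main result.** -/
theorem result (ε : ℝ) (hε : 0 < ε) : ∃ c : ℝ, 0 < c ∧
    ∀ (s d : ℕ) (m : Fin s → ℕ) (p : Fin 3 → Fin s), Function.Injective p → m (p 2) ≤ m (p 1) →
      m (p 1) ≤ m (p 0) → m (p 0) + m (p 1) + m (p 2) ≤ d →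
      (∀ i, (∀ j, p j ≠ i) → (m i : ℝ) ≤ c * ((d : ℝ) - m (p 0))) →
      DimLe (max (((d + 2).choose 2 : ℝ) - ∑ i, ((m i + 1).choose 2 : ℝ))
        (ε * XA m (univ.image p) d / 2)) d m ∧
      ((ε * XA m (univ.image p) d ≤
          |XA m (univ.image p) d - ∑ i ∈ univ \ univ.image p, (m i : ℝ) * (m i + 1)| ∨
        ∑ i ∈ (univ \ univ.image p).filter
          (fun i => c * XA m (univ.image p) d ^ (1 / 3 : ℝ) < (m i : ℝ)), (m i : ℝ) ^ 2 ≤
          (1 - ε) * XA m (univ.image p) d ∨
        ε * XA m (univ.image p) d ≤ ∑ i ∈ (univ \ univ.image p).filter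
          (fun i => (m i : ℝ) ≤ c * XA m (univ.image p) d ^ (1 / 3 : ℝ)), (m i : ℝ) ^ 2 ∨
        ∃ μ : ℝ, 0 ≤ μ ∧ Few m (univ \ univ.image p) μ (c * XA m (univ.image p) d) ∧
          (∑ i ∈ (univ \ univ.image p).filter (fun i => c * μ < (m i : ℝ)), (m i : ℝ) ^ 2 ≤
              (1 - ε) * XA m (univ.image p) d ∨
            ε * XA m (univ.image p) d ≤
              ∑ i ∈ (univ \ univ.image p).filter (fun i => (m i : ℝ) ≤ c * μ), (m i : ℝ) ^ 2)) →
      NonSpecial d m) := by
  obtain ⟨c, hc, H⟩ := main3_both_dim ε hε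
  refine ⟨c, hc, fun s d m p h1 h2 h3 h4 h5 => ?_⟩
  have H0 := @H s d m p h1 h2 h3 h4 h5
  rw [chi_cast] at H0
  exact ⟨le_of_gen H0.2, fun h6 => of_gen (H0.1 h6)⟩

end Pool.Agent.Results.MP_d3128a_ag.ThreeArbitrary
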