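import Mathlib
import Pool.Agent.H200G.All
import Pool.Agent.H200G.Open

set_option autoImplicit false

/-!
# Any number of different multiplicities, each repeated `2 ^ 29` times: non-special in all degrees

Multiplicities `m` are a UNION OF FAMILIES (`Pool.Agent.H200G.Families`) if the points can be divided into
groups, of any number and any sizes, such that in every group the sum of the squares of the
multiplicities is at least `2 ^ 29` times the number of the different nonzero values times the square
of the largest one. E.g. if every nonzero value occurs at least `2 ^ 29` times: the number of the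
values, their sizes and their ratios are arbitrary.

(1) If `m` is a union of families, then for all points of one nonempty open set the systems of plane
curves of ALL degrees with the multiplicities `m` are non-special.

(2) More generally `(d; m)` is non-special at general points if there is a union `v ≤ m` of families
with `(d + 2).choose 2 ≤ ∑ (v i + 1).choose 2`, or a union `v` of families with `m ≤ v` (`v` may have
more points) and `∑ (v i + 1).choose 2 ≤ (d + 2).choose 2` (`Pool.Agent.H200G.Fam`).

(3) In particular this is so for ARBITRARY multiplicities `m`, if the points whose multiplicities occur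
at least `2 ^ 29` times impose at least `(d + 2).choose 2` conditions, or if
`∑ (m i + 1).choose 2 + 2 ^ 29 ∑ (a + 1).choose 2 ≤ (d + 2).choose 2`, where `a` runs through the values
which occur less than `2 ^ 29` times.
-/

namespace Pool.Agent.Results.MP_d3128a_ag.UnionsOfFamilies

open Finset Pool.Agent.H200G

/-- The forms of degree `d` vanishing to order at least `m i` at the points `(P i 0 : P i 1 : 1)`. -/
noncomputable def forms {s : ℕ} (P : Fin s → Fin 2 → ℂ) (d : ℕ) (m : Fin s → ℕ) :
    Submodule ℂ (MvPolynomial (Fin 3) ℂ) :=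
  MvPolynomial.homogeneousSubmodule (Fin 3) ℂ d ⊓ Submodule.restrictScalars ℂ
    (⨅ i : Fin s, Ideal.span
      ({MvPolynomial.X 0 - MvPolynomial.C (P i 0) * MvPolynomial.X 2,
        MvPolynomial.X 1 - MvPolynomial.C (P i 1) * MvPolynomial.X 2} :
        Set (MvPolynomial (Fin 3) ℂ)) ^ (m i))

/-- The system has the expected dimension. -/
def Expected {s : ℕ} (P : Fin s → Fin 2 → ℂ) (d : ℕ) (m : Fin s → ℕ) : Prop :=
  (Module.finrank ℂ ↥(forms P d m) : ℤ) =
    max 0 (((d + 2).choose 2 : ℤ) - ∑ i, ((m i + 1).choose 2 : ℤ))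

/-- For general points the system is non-special. -/
def NonSpecial {s : ℕ} (d : ℕ) (m : Fin s → ℕ) : Prop :=
  ∃ F : MvPolynomial (Fin s × Fin 2) ℂ, F ≠ 0 ∧ ∀ P : Fin s → Fin 2 → ℂ,
    MvPolynomial.eval (fun ij : Fin s × Fin 2 => P ij.1 ij.2) F ≠ 0 → Expected P d m

/-- The points whose multiplicity occurs at least `2 ^ 29` times. -/
def often {s : ℕ} (m : Fin s → ℕ) : Finset (Fin s) :=
  univ.filter fun i => 2 ^ 29 ≤ (univ.filter fun j => m j = m i).card

theorem of_ed {s d : ℕ} {m : Fin s → ℕ} {P : Fin s → Fin 2 → ℂ}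
    (h : Pool.Agent.H932R3.ExpDim ℂ m P d) : Expected P d m := by
  have h1 : Module.finrank ℂ ↥(forms P d m) =
      Nat.choose (d + 2) 2 - ∑ i, Nat.choose (m i + 1) 2 := h
  have h2 : ∑ i, ((m i + 1).choose 2 : ℤ) = ((∑ i, Nat.choose (m i + 1) 2 : ℕ) : ℤ) := by
    push_cast
    rfl
  unfold Expected
  rw [h1, h2]
  omega

theorem of_gen {s d : ℕ} {m : Fin s → ℕ} (h : Pool.Agent.H200P.GenExp d m) : NonSpecial d m := by
  obtain ⟨F, hF, hF'⟩ := Pool.Agent.TH442.NF.to_open (d := d) (w := m) h
  refine ⟨F.map (algebraMap ℚ ℂ), Pool.Agent.H932R3.map_ne_zero_of hF, fun P hP => ?_⟩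
  rw [MvPolynomial.eval_map] at hP
  exact of_ed (hF' (L := ℂ) P hP)

/-- **Main result.** -/
theorem result (s : ℕ) (m : Fin s → ℕ) :
    -- unions of families: one open set for all degrees
    (Families m → ∃ F : MvPolynomial (Fin s × Fin 2) ℂ, F ≠ 0 ∧ ∀ P : Fin s → Fin 2 → ℂ,
      MvPolynomial.eval (fun ij : Fin s × Fin 2 => P ij.1 ij.2) F ≠ 0 →
        ∀ d : ℕ, Expected P d m) ∧
    -- above and below unions of families
    (∀ d : ℕ, Fam d m → NonSpecial d m) ∧
    -- arbitrary multiplicities: too many conditions at the repeated ones, or enough room for the others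
    ∀ d : ℕ, ((d + 2).choose 2 ≤ ∑ i ∈ often m, (m i + 1).choose 2 ∨
      ∑ i, (m i + 1).choose 2 + 2 ^ 29 * ∑ a ∈ (univ \ often m).image m, (a + 1).choose 2 ≤
        (d + 2).choose 2) → NonSpecial d m := by
  refine ⟨fun h => ?_, fun d h => of_gen (fam_all h), fun d h => of_gen (fam_all (rep_fam h))⟩
  obtain ⟨F, hF, hF'⟩ := all_open (w := m) (families_all h)
  refine ⟨F.map (algebraMap ℚ ℂ), Pool.Agent.H932R3.map_ne_zero_of hF, fun P hP d => ?_⟩
  rw [MvPolynomial.eval_map] at hP
  exact of_ed (hF' (L := ℂ) P hP d)

end Pool.Agent.Results.MP_d3128a_ag.UnionsOfFamilies
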